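import Pool.Agent.L7h51.UN.Int

set_option autoImplicit false

/-! # Project UN, part CELL0 (helper51), II: assembly of the families -/

namespace Pool.Agent.L7h51.UN

open Set Filter Function Pool.Agent.L7h71.UN

variable {V : Type}

/-- the action of the permutations of the families as a homomorphism -/
def actHom {d m : ℕ} (sz : Fin m → ℕ) :
    (Fin m → Equiv.Perm ℕ) →* Equiv.Perm (Dom d m sz) where
  toFun σ := 
    { toFun := act σ
      invFun := act σ⁻¹
      left_inv := by
        rintro (a | ⟨i, n, j⟩)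
        · rfl
        · simp [act]
      right_inv := by
        rintro (a | ⟨i, n, j⟩)
        · rfl
        · simp [act] }
  map_one' := by
    ext x
    rcases x with a | ⟨i, n, j⟩
    · rfl
    · simp [act]
  map_mul' σ τ := by
    ext x
    rcases x with a | ⟨i, n, j⟩
    · rfl
    · simp [act]

theorem actHom_apply {d m : ℕ} (sz : Fin m → ℕ) (σ : Fin m → Equiv.Perm ℕ) (x : Dom d m sz) :
    actHom sz σ x = act σ x := rfl

/-- a subgroup of `Perm ℕ` which contains all swaps is dense -/
theorem dense_of_swap {H : Subgroup (Equiv.Perm ℕ)} (hH : ∀ n n' : ℕ, n ≠ n' → Equiv.swap n n' ∈ H)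
    (τ : Equiv.Perm ℕ) (N : Finset ℕ) : ∃ τ' ∈ H, ∀ n ∈ N, τ' n = τ n := by
  induction N using Finset.induction_on with
  | empty => exact ⟨1, H.one_mem, by simp⟩
  | insert a N ha ih =>
    obtain ⟨τ', h1, h2⟩ := ih
    by_cases h : τ' a = τ a
    · refine ⟨τ', h1, fun n hn => ?_⟩
      rcases Finset.mem_insert.1 hn with rfl | hn
      · exact h
      · exact h2 n hn
    · refine ⟨Equiv.swap (τ' a) (τ a) * τ', H.mul_mem (hH _ _ h) h1, fun n hn => ?_⟩
      rcases Finset.mem_insert.1 hn with rfl | hn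
      · simp
      · rw [Equiv.Perm.mul_apply, h2 n hn, Equiv.swap_apply_of_ne_of_ne]
        · intro h3
          rw [← h2 n hn] at h3
          exact ha (τ'.injective h3 ▸ hn)
        · intro h3
          exact ha (τ.injective h3 ▸ hn)

theorem assembly0 {G : Subgroup (Equiv.Perm V)} (hG : Closed G) {d m : ℕ} {sz : Fin m → ℕ}
    (e : V ≃ Dom d m sz)
    (h : ∀ (i : Fin m) (n n' : ℕ), n ≠ n' → Sw G (fun j => e.symm (Sum.inr ⟨i, (n, j)⟩))
      fun j => e.symm (Sum.inr ⟨i, (n', j)⟩)) (σ : Fin m → Equiv.Perm ℕ) :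
    ∃ g ∈ G, ∀ v, g v = e.symm (act σ (e v)) := by
  classical
  -- the homomorphism to `Perm V`
  let ρ : (Fin m → Equiv.Perm ℕ) →* Equiv.Perm V :=
    (e.symm.permCongrHom : Equiv.Perm (Dom d m sz) ≃* Equiv.Perm V).toMonoidHom.comp (actHom sz)
  have hρ : ∀ σ v, ρ σ v = e.symm (act σ (e v)) := fun σ v => rfl
  let P : Subgroup (Fin m → Equiv.Perm ℕ) := G.comap ρ
  suffices hP : σ ∈ P from ⟨ρ σ, hP, hρ σ⟩
  have h1 : ∀ (i : Fin m) (n n' : ℕ), n ≠ n' → Pi.mulSingle i (Equiv.swap n n') ∈ P := by
    intro i n n' hn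
    obtain ⟨g, hg, hw⟩ := h i n n' hn
    have : ρ (Pi.mulSingle i (Equiv.swap n n')) = g := by
      ext v
      rw [hρ]
      obtain ⟨x, rfl⟩ := e.symm.surjective v
      rw [Equiv.apply_symm_apply]
      rcases x with a | ⟨i', k, j⟩
      · rw [hw.2.2 _ (fun j hj => by simpa using e.symm.injective hj)
          (fun j hj => by simpa using e.symm.injective hj)]
        rfl
      · by_cases hi : i' = i
        · subst hi
          by_cases h1 : k = n
          · subst h1
            rw [hw.1 j]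
            simp [act]
          · by_cases h2 : k = n'
            · subst h2
              rw [hw.2.1 j]
              simp [act]
            · rw [hw.2.2 _ (fun j' hj => ?_) (fun j' hj => ?_)]
              · simp [act, Equiv.swap_apply_of_ne_of_ne h1 h2]
              · have := e.symm.injective hj
                simp only [Sum.inr.injEq, Sigma.mk.injEq, heq_eq_eq, Prod.mk.injEq, true_and]
                  at this
                exact h1 this.1
              · have := e.symm.injective hj
                simp only [Sum.inr.injEq, Sigma.mk.injEq, heq_eq_eq, Prod.mk.injEq, true_and]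
                  at this
                exact h2 this.1
        · rw [hw.2.2 _ (fun j' hj => ?_) (fun j' hj => ?_)]
          · simp [act, Pi.mulSingle_eq_of_ne hi]
          · have := e.symm.injective hj
            simp only [Sum.inr.injEq, Sigma.mk.injEq] at this
            exact hi this.1
          · have := e.symm.injective hj
            simp only [Sum.inr.injEq, Sigma.mk.injEq] at this
            exact hi this.1
    show ρ _ ∈ G
    rw [this]
    exact hg
  have h2 : ∀ (i : Fin m) (τ : Equiv.Perm ℕ), Pi.mulSingle i τ ∈ P := by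
    intro i τ
    refine hG _ fun Z => ?_
    let H : Subgroup (Equiv.Perm ℕ) := P.comap (MonoidHom.mulSingle (fun _ : Fin m => Equiv.Perm ℕ) i)
    have hH : ∀ n n' : ℕ, n ≠ n' → Equiv.swap n n' ∈ H := fun n n' hn => h1 i n n' hn
    have hfin : {n : ℕ | ∃ z ∈ Z, ∃ j, e z = Sum.inr ⟨i, (n, j)⟩}.Finite := by
      have h3 : {n : ℕ | ∃ z ∈ Z, ∃ j, e z = Sum.inr ⟨i, (n, j)⟩} ⊆
          (fun z => Sum.elim (fun _ => 0) (fun w => w.2.1) (e z)) '' (Z : Set V) := by
        rintro n ⟨z, hz, j, hj⟩
        exact ⟨z, hz, by simp [hj]⟩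
      exact (Z.finite_toSet.image _).subset h3
    obtain ⟨τ', h3, h4⟩ := dense_of_swap hH τ hfin.toFinset
    refine ⟨ρ (Pi.mulSingle i τ'), h3, fun z hz => ?_⟩
    rw [hρ, hρ]
    congr 1
    rcases hx : e z with a | ⟨i', n, j⟩
    · rfl
    · by_cases hi : i' = i
      · subst hi
        have : τ' n = τ n := h4 n (by
          rw [Set.Finite.mem_toFinset]
          exact ⟨z, hz, j, hx⟩)
        simp [act, this]
      · simp [act, Pi.mulSingle_eq_of_ne hi]
  exact Subgroup.pi_mem_of_mulSingle_mem σ fun i => h2 i (σ i)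

theorem assembly {G : Subgroup (Equiv.Perm V)} (hG : Closed G) {D : Set V} (hD : D.Finite)
    {Q : Type} [Finite Q] {k : Q → ℕ} {t : ∀ q, ℕ → Fin (k q) → V}
    (h1 : ∀ v ∉ D, ∃ q n j, t q n j = v) (h2 : ∀ q n j, t q n j ∉ D)
    (h3 : ∀ q n j q' n' j', t q n j = t q' n' j' →
      (⟨q, (n, j)⟩ : Σ q, ℕ × Fin (k q)) = ⟨q', (n', j')⟩)
    (h4 : ∀ q n n', n ≠ n' → Sw G (t q n) (t q n')) :
    ∃ (d m : ℕ) (sz : Fin m → ℕ) (e : V ≃ Dom d m sz), ∀ σ : Fin m → Equiv.Perm ℕ,
      ∃ g ∈ G, ∀ v, g v = e.symm (act σ (e v)) := by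
  classical
  have := hD.to_subtype
  let eD : D ≃ Fin (Nat.card D) := Finite.equivFin D
  let eQ : Q ≃ Fin (Nat.card Q) := Finite.equivFin Q
  let sz : Fin (Nat.card Q) → ℕ := fun i => k (eQ.symm i)
  let T : Dom (Nat.card D) (Nat.card Q) sz → V :=
    Sum.elim (fun a => eD.symm a) fun w => t (eQ.symm w.1) w.2.1 w.2.2
  have hT : Bijective T := by
    constructor
    · rintro (a | ⟨i, n, j⟩) (a' | ⟨i', n', j'⟩) h
      · have : eD.symm a = eD.symm a' := Subtype.ext h
        rw [eD.symm.injective this]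
      · have h' : ((eD.symm a : D) : V) = t (eQ.symm i') n' j' := h
        exact absurd (h' ▸ (eD.symm a).2) (h2 _ _ _)
      · have h' : t (eQ.symm i) n j = ((eD.symm a' : D) : V) := h
        exact absurd (h'.symm ▸ (eD.symm a').2) (h2 _ _ _)
      · have h' := h3 (eQ.symm i) n j (eQ.symm i') n' j' h
        have h5 : i = i' := eQ.symm.injective (congrArg Sigma.fst h')
        subst h5
        have h6 := eq_of_heq (Sigma.mk.inj h').2
        rw [h6]
    · intro v
      by_cases hv : v ∈ D
      · refine ⟨Sum.inl (eD ⟨v, hv⟩), ?_⟩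
        show ((eD.symm (eD ⟨v, hv⟩) : D) : V) = v
        rw [Equiv.symm_apply_apply]
      · obtain ⟨q, n, j, h⟩ := h1 v hv
        obtain ⟨i, rfl⟩ := eQ.symm.surjective q
        exact ⟨Sum.inr ⟨i, (n, j)⟩, h⟩
  refine ⟨_, _, sz, (Equiv.ofBijective T hT).symm, fun σ => assembly0 hG _ ?_ σ⟩
  intro i n n' hn
  exact h4 (eQ.symm i) n n' hn

end Pool.Agent.L7h51.UN
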