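import Pool.Agent.L7h51.UN.Cella
import Pool.Agent.L7h51.UN.Cellb

set_option autoImplicit false

/-! # Project UN, part CELL0 (helper51), III: atoms -/

namespace Pool.Agent.L7h51.UN

open Set Filter Function Pool.Agent.L7h71.UN

variable {Ω V ι κ : Type}

/-! ### swaps: reindexing -/

theorem isSwap_comp {g : Equiv.Perm Ω} {b b' : ι → Ω} (h : IsSwap g b b') {e : κ → ι}
    (he : Surjective e) : IsSwap g (b ∘ e) (b' ∘ e) := by
  refine ⟨fun i => h.1 _, fun i => h.2.1 _, fun x h1 h2 => h.2.2 x (fun i => ?_) fun i => ?_⟩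
  · obtain ⟨k, rfl⟩ := he i
    exact h1 k
  · obtain ⟨k, rfl⟩ := he i
    exact h2 k

theorem isSwap_symm {g : Equiv.Perm Ω} {b b' : ι → Ω} (h : IsSwap g b b') : IsSwap g b' b :=
  ⟨h.2.1, h.1, fun x h1 h2 => h.2.2 x h2 h1⟩

/-- any enumeration of the same set is moved too -/
theorem isSwap_reenum {g : Equiv.Perm Ω} {s s' : κ → Ω} (hs : IsSwap g s s') {t : ι → Ω}
    (hr : range t = range s) : IsSwap g t (fun i => g (t i)) := by
  refine ⟨fun i => rfl, fun i => ?_, fun x h1 h2 => ?_⟩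
  · obtain ⟨k, hk⟩ : t i ∈ range s := hr ▸ mem_range_self i
    show g (g (t i)) = t i
    rw [← hk, hs.1, hs.2.1]
  · refine hs.2.2 x (fun k hk => ?_) fun k hk => ?_
    · obtain ⟨i, hi⟩ : s k ∈ range t := hr ▸ mem_range_self k
      exact h1 i (by rw [hi, hk])
    · obtain ⟨i, hi⟩ : s k ∈ range t := hr ▸ mem_range_self k
      refine h2 i ?_
      show x = g (t i)
      rw [hi, hs.1, hk]

theorem range_reenum {g : Equiv.Perm Ω} {s s' : κ → Ω} (hs : IsSwap g s s') {t : ι → Ω}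
    (hr : range t = range s) : range (fun i => g (t i)) = range s' := by
  have h1 : range (fun i => g (t i)) = g '' range t := by rw [← range_comp]; rfl
  have h2 : range s' = g '' range s := by
    rw [← range_comp]
    congr 1
    funext i
    exact (hs.1 i).symm
  rw [h1, h2, hr]

/-- composing two swaps -/
theorem sw_trans {G : Subgroup (Equiv.Perm Ω)} {a b c : ι → Ω} (hab : Sw G a b) (hac : Sw G a c)
    (h1 : ∀ i j, c i ≠ a j) (h2 : ∀ i j, c i ≠ b j) : Sw G b c := by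
  obtain ⟨g, hg, hs⟩ := hab
  have h := sw_conj hac hg
  have e1 : ∀ i, g (a i) = b i := hs.1
  have e2 : ∀ i, g (c i) = c i := fun i => hs.2.2 _ (fun j => h1 i j) fun j => h2 i j
  simpa only [e1, e2] using h

/-! ### good sets -/

theorem good_comp {G : Subgroup (Equiv.Perm Ω)} {b : ι → Ω} (hb : Good G b) (e : κ ≃ ι) :
    Good G (b ∘ e) := by
  refine ⟨hb.1.comp e.injective, fun Z => ?_⟩
  obtain ⟨b', h1, h2, g, hg, hs⟩ := hb.2 Z
  exact ⟨b' ∘ e, fun i => h1 _, fun i j => h2 _ _, g, hg, isSwap_comp hs e.surjective⟩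

theorem good_map {G : Subgroup (Equiv.Perm Ω)} {b : ι → Ω} (hb : Good G b) {g : Equiv.Perm Ω}
    (hg : g ∈ G) : Good G (fun i => g (b i)) := by
  classical
  refine ⟨g.injective.comp hb.1, fun Z => ?_⟩
  obtain ⟨b', h1, h2, h3⟩ := hb.2 (Z.image g.symm)
  refine ⟨fun i => g (b' i), fun i hi => h1 i ?_, fun i j h => h2 i j (g.injective h),
    sw_conj h3 hg⟩
  rw [Finset.mem_image]
  exact ⟨_, hi, by simp⟩

/-- `A` is the range of a good tuple. -/
def GS (G : Subgroup (Equiv.Perm Ω)) (A : Set Ω) : Prop :=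
  ∃ (n : ℕ) (b : Fin n → Ω), Good G b ∧ range b = A

theorem gs_range [Finite ι] {G : Subgroup (Equiv.Perm Ω)} {b : ι → Ω} (hb : Good G b) :
    GS G (range b) := by
  refine ⟨_, b ∘ (Finite.equivFin ι).symm, good_comp hb _, ?_⟩
  rw [(Finite.equivFin ι).symm.surjective.range_comp]

theorem gs_image {G : Subgroup (Equiv.Perm Ω)} {A : Set Ω} (hA : GS G A) {g : Equiv.Perm Ω}
    (hg : g ∈ G) : GS G (g '' A) := by
  obtain ⟨n, b, hb, rfl⟩ := hA
  refine ⟨n, fun i => g (b i), good_map hb hg, ?_⟩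
  rw [← range_comp]
  rfl

theorem gs_finite {G : Subgroup (Equiv.Perm Ω)} {A : Set Ω} (hA : GS G A) : A.Finite := by
  obtain ⟨n, b, hb, rfl⟩ := hA
  exact finite_range b

theorem good_part [Finite ι] [Finite κ] {G : Subgroup (Equiv.Perm Ω)} (hI0 : S_INT)
    (hG : Closed G) {b : ι → Ω} {B : κ → Ω} (hb : Good G b) (hB : Good G B) {I : Set ι}
    (hI : ∀ i, i ∈ I ↔ ∃ k, b i = B k) :
    Good G (fun i : I => b i) ∧ Good G (fun i : (Iᶜ : Set ι) => b i) := by
  refine ⟨⟨fun i j h => Subtype.ext (hb.1 h), fun Z => ?_⟩,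
    ⟨fun i j h => Subtype.ext (hb.1 h), fun Z => ?_⟩⟩
  · obtain ⟨b', h1, h2, h3⟩ := hb.2 Z
    exact ⟨fun i => b' i, fun i => h1 _, fun i j => h2 _ _,
      (hI0 Ω ι κ G hG b b' B hb hB h2 h3 I hI).1⟩
  · obtain ⟨b', h1, h2, h3⟩ := hb.2 Z
    exact ⟨fun i => b' i, fun i => h1 _, fun i j => h2 _ _,
      (hI0 Ω ι κ G hG b b' B hb hB h2 h3 I hI).2⟩

theorem gs_inter {G : Subgroup (Equiv.Perm Ω)} (hI0 : S_INT) (hG : Closed G) {A B : Set Ω}
    (hA : GS G A) (hB : GS G B) : GS G (A ∩ B) := by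
  obtain ⟨n, b, hb, rfl⟩ := hA
  obtain ⟨m, c, hc, rfl⟩ := hB
  have h := (good_part hI0 hG hb hc (I := {i | ∃ k, b i = c k}) fun i => Iff.rfl).1
  have h2 := gs_range h
  have : range (fun i : {i | ∃ k, b i = c k} => b i) = range b ∩ range c := by
    ext x
    constructor
    · rintro ⟨⟨i, k, hk⟩, rfl⟩
      exact ⟨⟨i, rfl⟩, ⟨k, hk.symm⟩⟩
    · rintro ⟨⟨i, rfl⟩, ⟨k, hk⟩⟩
      exact ⟨⟨i, k, hk.symm⟩, rfl⟩
  rwa [this] at h2

theorem gs_sdiff {G : Subgroup (Equiv.Perm Ω)} (hI0 : S_INT) (hG : Closed G) {A B : Set Ω}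
    (hA : GS G A) (hB : GS G B) : GS G (A \ B) := by
  obtain ⟨n, b, hb, rfl⟩ := hA
  obtain ⟨m, c, hc, rfl⟩ := hB
  have h := (good_part hI0 hG hb hc (I := {i | ∃ k, b i = c k}) fun i => Iff.rfl).2
  have h2 := gs_range h
  have : range (fun i : ({i | ∃ k, b i = c k}ᶜ : Set (Fin n)) => b i) = range b \ range c := by
    ext x
    constructor
    · rintro ⟨⟨i, hi⟩, rfl⟩
      exact ⟨⟨i, rfl⟩, fun ⟨k, hk⟩ => hi ⟨k, hk.symm⟩⟩
    · rintro ⟨⟨i, rfl⟩, hx⟩
      exact ⟨⟨i, fun ⟨k, hk⟩ => hx ⟨k, hk.symm⟩⟩, rfl⟩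
  rwa [this] at h2

/-! ### atoms -/

/-- A minimal good set. -/
def Atom (G : Subgroup (Equiv.Perm Ω)) (A : Set Ω) : Prop :=
  GS G A ∧ A.Nonempty ∧ ∀ B, GS G B → (A ∩ B).Nonempty → A ⊆ B

theorem exists_atom {G : Subgroup (Equiv.Perm Ω)} (hI0 : S_INT) (hG : Closed G) {v : Ω}
    {A₀ : Set Ω} (h0 : GS G A₀) (hv : v ∈ A₀) : ∃ A, Atom G A ∧ v ∈ A := by
  classical
  have hex : ∃ n, ∃ A, GS G A ∧ v ∈ A ∧ A.ncard = n := ⟨_, A₀, h0, hv, rfl⟩
  obtain ⟨A, h1, h2, h3⟩ := Nat.find_spec hex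
  have hmin : ∀ B, GS G B → v ∈ B → A ⊆ B := by
    intro B hB hvB
    have h4 : Nat.find hex ≤ (A ∩ B).ncard :=
      Nat.find_min' hex ⟨A ∩ B, gs_inter hI0 hG h1 hB, ⟨h2, hvB⟩, rfl⟩
    rw [← h3] at h4
    have h5 := Set.eq_of_subset_of_ncard_le inter_subset_left h4 (gs_finite h1)
    rw [← h5]
    exact inter_subset_right
  refine ⟨A, ⟨h1, ⟨v, h2⟩, fun B hB hAB => ?_⟩, h2⟩
  by_cases hvB : v ∈ B
  · exact hmin B hB hvB
  · obtain ⟨w, hwA, hwB⟩ := hAB
    exact absurd hwB (hmin (A \ B) (gs_sdiff hI0 hG h1 hB) ⟨h2, hvB⟩ hwA).2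

theorem atom_eq {G : Subgroup (Equiv.Perm Ω)} {A A' : Set Ω} (h : Atom G A) (h' : Atom G A')
    {v : Ω} (h1 : v ∈ A) (h2 : v ∈ A') : A = A' :=
  (h.2.2 A' h'.1 ⟨v, h1, h2⟩).antisymm (h'.2.2 A h.1 ⟨v, h2, h1⟩)

theorem atom_image {G : Subgroup (Equiv.Perm Ω)} {A : Set Ω} (h : Atom G A) {g : Equiv.Perm Ω}
    (hg : g ∈ G) : Atom G (g '' A) := by
  refine ⟨gs_image h.1 hg, h.2.1.image g, fun B hB hAB => ?_⟩
  have h1 := h.2.2 (⇑g⁻¹ '' B) (gs_image hB (G.inv_mem hg)) (by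
    obtain ⟨x, ⟨y, hy, rfl⟩, hx⟩ := hAB
    exact ⟨y, hy, g y, hx, by simp⟩)
  rintro x ⟨y, hy, rfl⟩
  obtain ⟨z, hz, hzy⟩ := h1 hy
  rw [← hzy]
  simpa using hz

/-- The relation of atoms: they are equal or exchanged. -/
def Rel (G : Subgroup (Equiv.Perm Ω)) (A A' : Set Ω) : Prop :=
  A = A' ∨ ∃ (n : ℕ) (t t' : Fin n → Ω), range t = A ∧ range t' = A' ∧ Sw G t t'

theorem rel_symm {G : Subgroup (Equiv.Perm Ω)} {A A' : Set Ω} (h : Rel G A A') : Rel G A' A := by
  rcases h with h | ⟨n, t, t', h1, h2, g, hg, hs⟩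
  · exact Or.inl h.symm
  · exact Or.inr ⟨n, t', t, h2, h1, g, hg, isSwap_symm hs⟩

/-- Transfer of an enumeration. -/
theorem exists_enum {G : Subgroup (Equiv.Perm Ω)} {A A' : Set Ω} (h : Rel G A A') {n : ℕ}
    {t : Fin n → Ω} (ht : Injective t) (hr : range t = A) :
    ∃ t' : Fin n → Ω, Injective t' ∧ range t' = A' ∧ (A = A' → t' = t) ∧ (A ≠ A' → Sw G t t') := by
  by_cases hA : A = A'
  · exact ⟨t, ht, hr.trans hA, fun _ => rfl, fun h => absurd hA h⟩
  · obtain ⟨k, s, s', h1, h2, g, hg, hs⟩ := h.resolve_left hA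
    have h3 : range t = range s := hr.trans h1.symm
    refine ⟨fun i => g (t i), g.injective.comp ht, ?_, fun h => absurd h hA,
      fun _ => ⟨g, hg, isSwap_reenum hs h3⟩⟩
    rw [range_reenum hs h3, h2]

theorem sw_of_enum {G : Subgroup (Equiv.Perm Ω)} {A A' A'' : Set Ω} (hA : Atom G A)
    (hA' : Atom G A') (hA'' : Atom G A'') {n : ℕ} {t t' t'' : Fin n → Ω} (hr : range t = A)
    (hr' : range t' = A') (hr'' : range t'' = A'') (h1 : A = A' → t' = t) (h2 : A ≠ A' → Sw G t t')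
    (h3 : A = A'' → t'' = t) (h4 : A ≠ A'' → Sw G t t'') (hne : A' ≠ A'') : Sw G t' t'' := by
  by_cases e1 : A = A'
  · rw [h1 e1]
    exact h4 fun e => hne (e1.symm.trans e)
  · by_cases e2 : A = A''
    · rw [h3 e2]
      obtain ⟨g, hg, hs⟩ := h2 e1
      exact ⟨g, hg, isSwap_symm hs⟩
    · refine sw_trans (h2 e1) (h4 e2) (fun i j h => e2 ?_) fun i j h => hne ?_
      · refine atom_eq hA hA'' (v := t j) (hr ▸ mem_range_self j) ?_
        rw [← h]
        exact hr'' ▸ mem_range_self i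
      · refine atom_eq hA' hA'' (v := t' j) (hr' ▸ mem_range_self j) ?_
        rw [← h]
        exact hr'' ▸ mem_range_self i

theorem gs_enum {G : Subgroup (Equiv.Perm Ω)} {A : Set Ω} (h : GS G A) :
    ∃ (n : ℕ) (t : Fin n → Ω), Injective t ∧ range t = A := by
  obtain ⟨n, b, hb, hr⟩ := h
  exact ⟨n, b, hb.1, hr⟩

theorem rel_trans {G : Subgroup (Equiv.Perm Ω)} {A A' A'' : Set Ω} (hA : Atom G A)
    (hA' : Atom G A') (hA'' : Atom G A'') (h : Rel G A A') (h' : Rel G A' A'') : Rel G A A'' := by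
  by_cases hne : A = A''
  · exact Or.inl hne
  obtain ⟨n, t, ht, hr⟩ := gs_enum hA'.1
  obtain ⟨s, -, h1, h2, h3⟩ := exists_enum (rel_symm h) ht hr
  obtain ⟨s', -, h4, h5, h6⟩ := exists_enum h' ht hr
  exact Or.inr ⟨n, s, s', h1, h4, sw_of_enum hA' hA hA'' hr h1 h4 h2 h3 h5 h6 hne⟩

/-- The atoms. -/
def Atm (G : Subgroup (Equiv.Perm Ω)) : Type := {A : Set Ω // Atom G A}

instance atmSetoid (G : Subgroup (Equiv.Perm Ω)) : Setoid (Atm G) where
  r A A' := Rel G A.1 A'.1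
  iseqv := ⟨fun _ => Or.inl rfl, fun h => rel_symm h, fun {A A' A''} h h' =>
    rel_trans A.2 A'.2 A''.2 h h'⟩

theorem countable_atm [Countable Ω] (G : Subgroup (Equiv.Perm Ω)) : Countable (Atm G) := by
  have h : Injective fun A : Atm G => A.2.2.1.some := by
    intro A A' h
    refine Subtype.ext (atom_eq A.2 A'.2 A.2.2.1.some_mem ?_)
    have h' : A.2.2.1.some = A'.2.2.1.some := h
    rw [h']
    exact A'.2.2.1.some_mem
  exact h.countable

theorem infinite_class {G : Subgroup (Equiv.Perm Ω)} (q : Quotient (atmSetoid G)) :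
    Infinite {A : Atm G // Quotient.mk _ A = q} := by
  by_contra hfin
  rw [not_infinite_iff_finite] at hfin
  obtain ⟨A₀, hA₀⟩ := Quotient.exists_rep q
  obtain ⟨n, b, hb, hr⟩ := A₀.2.1
  have hZ : (⋃ A : {A : Atm G // Quotient.mk _ A = q}, A.1.1).Finite :=
    Set.finite_iUnion fun A => gs_finite A.1.2.1
  obtain ⟨b', h1, h2, g, hg, hs⟩ := hb.2 hZ.toFinset
  have hrg : range b' = g '' A₀.1 := by
    rw [← hr, ← range_comp]
    congr 1
    funext i
    exact (hs.1 i).symm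
  let A' : Atm G := ⟨range b', hrg ▸ atom_image A₀.2 hg⟩
  have hA' : Quotient.mk _ A' = q := by
    rw [← hA₀]
    exact Quotient.sound (rel_symm (Or.inr ⟨n, b, b', hr, rfl, g, hg, hs⟩))
  obtain ⟨x, hx⟩ := A'.2.2.1
  obtain ⟨i, rfl⟩ := hx
  refine h1 i ?_
  rw [Set.Finite.mem_toFinset]
  exact mem_iUnion.2 ⟨⟨A', hA'⟩, ⟨i, rfl⟩⟩

/-- The group theoretic core: if the set of points in no good tuple is finite and there are finitely
many classes of atoms then the group is cellular. -/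
theorem cell_of_classes [Countable Ω] {G : Subgroup (Equiv.Perm Ω)} (hI0 : S_INT) (hG : Closed G)
    (hD : {v : Ω | ∀ A, GS G A → v ∉ A}.Finite) [Finite (Quotient (atmSetoid G))] :
    ∃ (d m : ℕ) (sz : Fin m → ℕ) (e : Ω ≃ Dom d m sz), ∀ σ : Fin m → Equiv.Perm ℕ,
      ∃ g ∈ G, ∀ v, g v = e.symm (act σ (e v)) := by
  classical
  have := countable_atm G
  -- enumeration of the classes
  have hc : ∀ q : Quotient (atmSetoid G), Nonempty (ℕ ≃ {A : Atm G // Quotient.mk _ A = q}) := by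
    intro q
    have := infinite_class q
    obtain ⟨h⟩ := nonempty_denumerable {A : Atm G // Quotient.mk _ A = q}
    exact ⟨(Denumerable.eqv _).symm⟩
  obtain ⟨c⟩ : Nonempty (∀ q : Quotient (atmSetoid G),
      ℕ ≃ {A : Atm G // Quotient.mk _ A = q}) := ⟨fun q => (hc q).some⟩
  -- enumeration of the representatives
  have hk : ∀ q : Quotient (atmSetoid G), ∃ (n : ℕ) (t : Fin n → Ω), Injective t ∧
      range t = (Quotient.out q).1 := fun q => gs_enum (Quotient.out q).2.1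
  choose k t0 ht0 hr0 using hk
  have hrel : ∀ q n, Rel G (Quotient.out q).1 (c q n).1.1 := by
    intro q n
    have h1 : Quotient.mk (atmSetoid G) (Quotient.out q) = Quotient.mk _ (c q n).1 := by
      rw [Quotient.out_eq, (c q n).2]
    exact Quotient.exact h1
  have ht := fun q n => exists_enum (hrel q n) (ht0 q) (hr0 q)
  choose t ht1 ht2 ht3 ht4 using ht
  refine assembly hG hD (k := k) (t := t) (fun v hv => ?_) (fun q n j h => ?_)
    (fun q n j q' n' j' h => ?_) fun q n n' hn => ?_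
  · have hv' : ∃ A, GS G A ∧ v ∈ A := by
      by_contra h
      push Not at h
      exact hv h
    obtain ⟨A₀, h0, hv0⟩ := hv'
    obtain ⟨A, hA, hvA⟩ := exists_atom hI0 hG h0 hv0
    let a : Atm G := ⟨A, hA⟩
    obtain ⟨n, hn⟩ := (c (Quotient.mk _ a)).surjective ⟨a, rfl⟩
    have h1 : v ∈ range (t (Quotient.mk _ a) n) := by
      rw [ht2, hn]
      exact hvA
    obtain ⟨j, hj⟩ := h1
    exact ⟨_, n, j, hj⟩
  · exact h _ (c q n).1.2.1 (by rw [← ht2]; exact mem_range_self j)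
  · have h1 : (c q n).1.1 = (c q' n').1.1 :=
      atom_eq (c q n).1.2 (c q' n').1.2 (v := t q n j) (by rw [← ht2]; exact mem_range_self j)
        (by rw [h, ← ht2]; exact mem_range_self j')
    have h2 : (c q n).1 = (c q' n').1 := Subtype.ext h1
    have h3 : q = q' := by
      rw [← (c q n).2, h2, (c q' n').2]
    subst h3
    have h4 : n = n' := (c q).injective (Subtype.ext h2)
    subst h4
    rw [ht1 q n h]
  · refine sw_of_enum (Quotient.out q).2 (c q n).1.2 (c q n').1.2 (hr0 q) (ht2 q n) (ht2 q n')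
      (ht3 q n) (ht4 q n) (ht3 q n') (ht4 q n') fun h => hn ?_
    exact (c q).injective (Subtype.ext (Subtype.ext h))

theorem good_of_family {G : Subgroup (Equiv.Perm Ω)} {n : ℕ} {p : Ultrafilter (Fin n → Ω)}
    (hp : Free p) {T : Set (Fin n → Ω)} (hT : ∀ᶠ b : Fin n → Ω in p, b ∈ T)
    (hinj : ∀ b ∈ T, Injective b)
    (hsw : ∀ b ∈ T, ∀ b' ∈ T, (∀ i j, b i ≠ b' j) → Sw G b b') {b : Fin n → Ω} (hb : b ∈ T) :
    Good G b := by
  refine ⟨hinj b hb, fun Z => ?_⟩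
  obtain ⟨b', h1, h2⟩ := (hT.and (hp.avoid (Z.finite_toSet.union (finite_range b)))).exists
  have h3 : ∀ i j, b i ≠ b' j := fun i j h => h2 j (Or.inr ⟨i, h⟩)
  exact ⟨b', fun i hi => h2 i (Or.inl hi), h3, hsw b hb b' h1 h3⟩

theorem cell_group [Countable Ω] {G : Subgroup (Equiv.Perm Ω)} (hI0 : S_INT) (hG : Closed G)
    (H : ∀ u : Ultrafilter Ω, (∀ a, ∀ᶠ v : Ω in u, v ≠ a) →
      ∃ (n : ℕ) (p : Ultrafilter (Fin n → Ω)) (i₀ : Fin n) (T : Set (Fin n → Ω)), Free p ∧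
        (p.map fun x => x i₀) = u ∧ (∀ᶠ b : Fin n → Ω in p, b ∈ T) ∧ (∀ b ∈ T, Injective b) ∧
        ∀ b ∈ T, ∀ b' ∈ T, (∀ i j, b i ≠ b' j) → Sw G b b') :
    ∃ (d m : ℕ) (sz : Fin m → ℕ) (e : Ω ≃ Dom d m sz), ∀ σ : Fin m → Equiv.Perm ℕ,
      ∃ g ∈ G, ∀ v, g v = e.symm (act σ (e v)) := by
  classical
  have hD : {v : Ω | ∀ A, GS G A → v ∉ A}.Finite := by
    by_contra hinf
    have hinf' : {v : Ω | ∀ A, GS G A → v ∉ A}.Infinite := hinf
    have hne := hinf'.cofinite_inf_principal_neBot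
    set u := Ultrafilter.of (cofinite ⊓ 𝓟 {v : Ω | ∀ A, GS G A → v ∉ A}) with hu
    have hu1 : (u : Filter Ω) ≤ cofinite ⊓ 𝓟 {v : Ω | ∀ A, GS G A → v ∉ A} := Ultrafilter.of_le _
    have hu2 : ∀ a, ∀ᶠ v : Ω in u, v ≠ a := fun a =>
      (hu1.trans inf_le_left) (by simp)
    have hu3 : ∀ᶠ v : Ω in u, ∀ A, GS G A → v ∉ A :=
      (hu1.trans inf_le_right) (mem_principal_self _)
    obtain ⟨n, p, i₀, T, h1, h2, h3, h4, h5⟩ := H u hu2
    rw [← h2, Ultrafilter.coe_map, eventually_map] at hu3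
    obtain ⟨b, h6, h7⟩ := (h3.and hu3).exists
    exact h7 _ (gs_range (good_of_family h1 h3 h4 h5 h6)) (mem_range_self i₀)
  have hQ : Finite (Quotient (atmSetoid G)) := by
    by_contra hinf
    rw [not_finite_iff_infinite] at hinf
    let q := Infinite.natEmbedding (Quotient (atmSetoid G))
    let v : ℕ → Ω := fun n => (Quotient.out (q n)).2.2.1.some
    have hv : ∀ n, v n ∈ (Quotient.out (q n)).1 := fun n => (Quotient.out (q n)).2.2.1.some_mem
    have hvinj : Injective v := by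
      intro n m h
      have h1 : (Quotient.out (q n)).1 = (Quotient.out (q m)).1 :=
        atom_eq (Quotient.out (q n)).2 (Quotient.out (q m)).2 (hv n) (h ▸ hv m)
      have h2 : Quotient.out (q n) = Quotient.out (q m) := Subtype.ext h1
      have h3 : q n = q m := by
        rw [← Quotient.out_eq (q n), h2, Quotient.out_eq]
      exact q.injective h3
    have hu2 : ∀ a, ∀ᶠ w : Ω in ((hyperfilter ℕ).map v : Ultrafilter Ω), w ≠ a := by
      intro a
      rw [Ultrafilter.coe_map, eventually_map]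
      have h1 : {n | v n = a}.Subsingleton := fun n hn m hm => hvinj (hn.trans hm.symm)
      exact hyperfilter_le_cofinite h1.finite.compl_mem_cofinite
    have hu3 : ∀ᶠ w : Ω in ((hyperfilter ℕ).map v : Ultrafilter Ω), w ∈ range v := by
      rw [Ultrafilter.coe_map, eventually_map]
      exact Eventually.of_forall fun n => mem_range_self n
    obtain ⟨n, p, i₀, T, h1, h2, h3, h4, h5⟩ := H _ hu2
    rw [← h2, Ultrafilter.coe_map, eventually_map] at hu3
    obtain ⟨b, hbT, l, hl⟩ := (h3.and hu3).exists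
    obtain ⟨b', ⟨hbT', l', hl'⟩, hav⟩ := ((h3.and hu3).and (h1.avoid (finite_range b))).exists
    have hd : ∀ i j, b i ≠ b' j := fun i j h => hav j ⟨i, h⟩
    have hgb := good_of_family h1 h3 h4 h5 hbT
    obtain ⟨k, B, hB, hBr⟩ := (Quotient.out (q l)).2.1
    have hI := (hI0 Ω (Fin n) (Fin k) G hG b b' B hgb hB hd (h5 b hbT b' hbT' hd)
      {i | ∃ k, b i = B k} fun i => Iff.rfl).1
    obtain ⟨g, hg, hs⟩ := hI
    have hsub : (Quotient.out (q l)).1 ⊆ range b :=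
      (Quotient.out (q l)).2.2.2 _ (gs_range hgb) ⟨v l, hv l, i₀, hl.symm⟩
    have hr1 : range (fun i : {i | ∃ k, b i = B k} => b i) = (Quotient.out (q l)).1 := by
      ext x
      constructor
      · rintro ⟨⟨i, j, hj⟩, rfl⟩
        rw [← hBr]
        exact ⟨j, hj.symm⟩
      · intro hx
        obtain ⟨i, rfl⟩ := hsub hx
        obtain ⟨j, hj⟩ : b i ∈ range B := hBr ▸ hx
        exact ⟨⟨i, j, hj.symm⟩, rfl⟩
    have hi₀ : ∃ k, b i₀ = B k := by
      obtain ⟨j, hj⟩ : v l ∈ range B := hBr ▸ hv l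
      exact ⟨j, by rw [hj, hl]⟩
    have hr2 : range (fun i : {i | ∃ k, b i = B k} => b' i) = g '' (Quotient.out (q l)).1 := by
      rw [← hr1, ← range_comp]
      congr 1
      funext i
      exact (hs.1 i).symm
    have hr3 : range (fun i : {i | ∃ k, b i = B k} => b' i) = (Quotient.out (q l')).1 := by
      rw [hr2]
      refine atom_eq (atom_image (Quotient.out (q l)).2 hg) (Quotient.out (q l')).2 (v := v l') ?_
        (hv l')
      rw [← hr2]
      exact ⟨⟨i₀, hi₀⟩, hl'.symm⟩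
    have hrel : Rel G (Quotient.out (q l)).1 (Quotient.out (q l')).1 := by
      let e := (Finite.equivFin {i | ∃ k, b i = B k}).symm
      refine Or.inr ⟨_, (fun i : {i | ∃ k, b i = B k} => b i) ∘ e,
        (fun i : {i | ∃ k, b i = B k} => b' i) ∘ e, ?_, ?_, g, hg, isSwap_comp hs e.surjective⟩
      · rw [e.surjective.range_comp, hr1]
      · rw [e.surjective.range_comp, hr3]
    have hq : q l = q l' := by
      rw [← Quotient.out_eq (q l), ← Quotient.out_eq (q l')]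
      exact Quotient.sound hrel
    have hll : l = l' := q.injective hq
    subst hll
    exact hd i₀ i₀ (hl.symm.trans hl')
  exact cell_of_classes hI0 hG hD

theorem s_CELL0 (hI0 : S_INT) : S_CELL0 := by
  intro r K _ hC V _ _ M hM H
  obtain ⟨d, m, sz, e, he⟩ := cell_group hI0 (closed_aut M ∅) (fun u hu => by
    obtain ⟨n, p, i₀, h1, h2, h3⟩ := H u hu
    exact ⟨n, p, i₀, {b | Gen M p b}, h1, h2, h3, fun b hb => hb.1,
      fun b hb b' hb' hd => gen_swap h1 hb hb' hd⟩)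
  refine ⟨d, m, sz, e, fun σ x => ?_⟩
  obtain ⟨g, hg, hge⟩ := he σ
  have h1 := hg.1 x
  rw [← h1]
  congr 1
  funext i
  exact (hge (x i)).symm

end Pool.Agent.L7h51.UN
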