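import Pool.Agent.L7h71.UN.Stm

set_option autoImplicit false

/-! # Project UN, part CELL0 (helper51), I: generic tuples are exchanged -/

namespace Pool.Agent.L7h51.UN

open Set Filter Function Pool.Agent.L7h71.UN

variable {ι : Type}

open Classical in
/-- the term with variables at the entries in `b` and `b'` -/
noncomputable def pat {ι V : Type} {r : ℕ} (b b' : ι → V) (x : Fin r → V) : Fin r → V ⊕ (ι ⊕ ι) :=
  fun i => if h : ∃ j, x i = b j then Sum.inr (Sum.inl h.choose) else
    if h : ∃ j, x i = b' j then Sum.inr (Sum.inr h.choose) else Sum.inl (x i)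

theorem gen_swap {r : ℕ} {K V : Type} [Finite K] [Finite ι] {M : St r K V}
    {p : Ultrafilter (ι → V)} (hp : Free p) {b b' : ι → V} (hb : Gen M p b) (hb' : Gen M p b') (hd : ∀ i j, b i ≠ b' j) :
    Sw (Aut M ∅) b b' := by
  classical
  obtain ⟨s, hs⟩ := exists_swap hb.1 hb'.1 hd
  refine ⟨s, ⟨fun x => ?_, fun w hw => absurd hw (Set.notMem_empty w)⟩, hs⟩
  set τ := pat b b' x with hτ
  have hτ0 : ∀ i v, τ i = Sum.inl v → (∀ j, v ≠ b j) ∧ (∀ j, v ≠ b' j) ∧ v = x i := by
    intro i v h
    rw [hτ] at h
    unfold pat at h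
    split_ifs at h with h1 h2
    have h3 : x i = v := Sum.inl.inj h
    push Not at h1 h2
    subst h3
    exact ⟨h1, h2, rfl⟩
  have hτ1 : ∀ i j, τ i = Sum.inr (Sum.inl j) → x i = b j := by
    intro i j h
    rw [hτ] at h
    unfold pat at h
    split_ifs at h with h1 h2
    · have h3 : h1.choose = j := Sum.inl.inj (Sum.inr.inj h)
      rw [← h3]
      exact h1.choose_spec
    · simp at h
  have hτ2 : ∀ i j, τ i = Sum.inr (Sum.inr j) → x i = b' j := by
    intro i j h
    rw [hτ] at h
    unfold pat at h
    split_ifs at h with h1 h2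
    · simp at h
    · have h3 : h2.choose = j := Sum.inr.inj (Sum.inr.inj h)
      rw [← h3]
      exact h2.choose_spec
  have e1 : sub τ (Sum.elim b b') = x := by
    funext i
    unfold sub
    rcases h : τ i with v | (j | j)
    · simp [(hτ0 i v h).2.2]
    · simp [hτ1 i j h]
    · simp [hτ2 i j h]
  have e2 : sub τ (Sum.elim b' b) = s ∘ x := by
    funext i
    unfold sub
    rcases h : τ i with v | (j | j)
    · obtain ⟨h1, h2, h3⟩ := hτ0 i v h
      have := hs.2.2 v h1 h2
      simp [← h3, this]
    · simp [hτ1 i j h, hs.1]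
    · simp [hτ2 i j h, hs.2.1]
  -- substitution of the second and of the first block
  have key : ∀ c c' : ι → V, Gen M p c → Gen M p c' → (∀ i j, c i ≠ c' j) →
      (∀ i v, τ i = Sum.inl v → (∀ j, v ≠ c j) ∧ ∀ j, v ≠ c' j) →
      M (sub τ (Sum.elim c c')) =
        lim p (fun x => lim p fun y => M (sub τ (Sum.elim x y))) := by
    intro c c' hc hc' hcc hv
    let z : Fin r → V ⊕ ι := fun i => Sum.elim Sum.inl (Sum.elim Sum.inr fun j => Sum.inl (c' j)) (τ i)
    have hz : ∀ y : ι → V, sub z y = sub τ (Sum.elim y c') := by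
      intro y
      funext i
      simp only [sub, z]
      rcases τ i with v | (j | j) <;> rfl
    have h1 : M (sub z c) = lim p fun y => M (sub z y) := by
      refine hc.2 z fun i j h => ?_
      simp only [z] at h
      rcases h' : τ i with v | (k | k)
      · rw [h'] at h
        exact (hv i v h').1 j (Sum.inl.inj h)
      · rw [h'] at h
        simp at h
      · rw [h'] at h
        exact hcc j k (Sum.inl.inj h).symm
    rw [hz] at h1
    rw [h1]
    refine lim_congr ?_
    have hav := hp.avoid (F := range c') (finite_range c')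
    refine hav.mono fun y hy => ?_
    rw [hz]
    let w : Fin r → V ⊕ ι := fun i => Sum.elim Sum.inl (Sum.elim (fun j => Sum.inl (y j)) Sum.inr) (τ i)
    have hw : ∀ y' : ι → V, sub w y' = sub τ (Sum.elim y y') := by
      intro y'
      funext i
      simp only [sub, w]
      rcases τ i with v | (j | j) <;> rfl
    have h2 : M (sub w c') = lim p fun y' => M (sub w y') := by
      refine hc'.2 w fun i j h => ?_
      simp only [w] at h
      rcases h' : τ i with v | (k | k)
      · rw [h'] at h
        exact (hv i v h').2 j (Sum.inl.inj h)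
      · rw [h'] at h
        exact hy k ⟨j, (Sum.inl.inj h).symm⟩
      · rw [h'] at h
        simp at h
    rw [hw] at h2
    rw [h2]
    exact lim_congr (Eventually.of_forall fun y' => by rw [hw])
  have k1 := key b b' hb hb' hd fun i v h => ⟨(hτ0 i v h).1, (hτ0 i v h).2.1⟩
  -- the other order
  have key2 : M (sub τ (Sum.elim b' b)) =
      lim p (fun x => lim p fun y => M (sub τ (Sum.elim x y))) :=
    key b' b hb' hb (fun i j h => hd j i h.symm) fun i v h => ⟨(hτ0 i v h).2.1, (hτ0 i v h).1⟩
  rw [← e2, key2, ← k1, e1]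

end Pool.Agent.L7h51.UN
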