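import Pool.Agent.L7h71.UN.Stm

set_option autoImplicit false
set_option linter.unusedSimpArgs false

/-! # Project UN, part INT (helper51): blocks in permutation groups -/

namespace Pool.Agent.L7h51.UN

open Set Filter Function Pool.Agent.L7h71.UN

variable {Ω ι κ : Type}

theorem isSwap_conj {w : Equiv.Perm Ω} {c c' : ι → Ω} (h : IsSwap w c c') (g : Equiv.Perm Ω) :
    IsSwap (g * w * g⁻¹) (fun i => g (c i)) (fun i => g (c' i)) := by
  refine ⟨fun i => ?_, fun i => ?_, fun x h1 h2 => ?_⟩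
  · show g (w (g.symm (g (c i)))) = g (c' i)
    rw [Equiv.symm_apply_apply, h.1]
  · show g (w (g.symm (g (c' i)))) = g (c i)
    rw [Equiv.symm_apply_apply, h.2.1]
  · have h3 : w (g.symm x) = g.symm x := by
      refine h.2.2 _ (fun i hi => h1 i ?_) (fun i hi => h2 i ?_)
      · show x = g (c i)
        rw [← hi, Equiv.apply_symm_apply]
      · show x = g (c' i)
        rw [← hi, Equiv.apply_symm_apply]
    show g (w (g.symm x)) = x
    rw [h3, Equiv.apply_symm_apply]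

theorem sw_conj {G : Subgroup (Equiv.Perm Ω)} {c c' : ι → Ω} (h : Sw G c c') {g : Equiv.Perm Ω}
    (hg : g ∈ G) : Sw G (fun i => g (c i)) (fun i => g (c' i)) := by
  obtain ⟨w, hw, hs⟩ := h
  exact ⟨g * w * g⁻¹, G.mul_mem (G.mul_mem hg hw) (G.inv_mem hg), isSwap_conj hs g⟩

theorem isSwap_inj {g : Equiv.Perm Ω} {b b' : ι → Ω} (h : IsSwap g b b') (hb : Injective b) :
    Injective b' := by
  intro i j hij
  apply hb
  apply g.injective
  rw [h.1, h.1, hij]

/-- a remote copy avoiding a finite set -/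
theorem good_avoid [Finite κ] {G : Subgroup (Equiv.Perm Ω)} {B : κ → Ω} (hB : Good G B)
    {Z : Set Ω} (hZ : Z.Finite) : ∃ (B' : κ → Ω) (t : Equiv.Perm Ω), t ∈ G ∧ IsSwap t B B' ∧
      (∀ k, B' k ∉ Z) ∧ (∀ k j, B k ≠ B' j) := by
  obtain ⟨B', h1, h2, t, ht, h3⟩ := hB.2 hZ.toFinset
  exact ⟨B', t, ht, h3, fun k hk => h1 k (hZ.mem_toFinset.2 hk), h2⟩

open Classical in
theorem part_swap [Finite ι] [Finite κ] {G : Subgroup (Equiv.Perm Ω)} (hG : Closed G)
    {b b' : ι → Ω} {B : κ → Ω} (hb : Injective b) (hB : Good G B) (hbb : ∀ i j, b i ≠ b' j)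
    (hBb : ∀ k i, B k ≠ b' i) {s : Equiv.Perm Ω} (hs : s ∈ G) (hsw : IsSwap s b b')
    {I : Set ι} (hI : ∀ i, i ∈ I ↔ ∃ k, b i = B k) :
    Sw G (fun i : I => b i) (fun i : I => b' i) := by
  have hb' := isSwap_inj hsw hb
  obtain ⟨g, hg⟩ := exists_swap (b := fun i : I => b i) (b' := fun i : I => b' i)
    (fun i j h => Subtype.ext (hb h)) (fun i j h => Subtype.ext (hb' h)) fun i j => hbb i j
  refine ⟨g, hG g fun Z => ?_, hg⟩
  have hf0 : ((Z : Set Ω) ∪ range b ∪ range b' ∪ range B).Finite :=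
    ((Z.finite_toSet.union (finite_range b)).union (finite_range b')).union (finite_range B)
  obtain ⟨U, t, ht, htw, hU, hBU⟩ := good_avoid hB hf0
  obtain ⟨V, m, hm, hmw, hV, hBV⟩ := good_avoid hB (hf0.union (finite_range U))
  have hUZ : ∀ k, U k ∉ Z := fun k h => hU k (Or.inl (Or.inl (Or.inl h)))
  have hUb : ∀ k i, U k ≠ b i := fun k i h => hU k (Or.inl (Or.inl (Or.inr ⟨i, h.symm⟩)))
  have hUb' : ∀ k i, U k ≠ b' i := fun k i h => hU k (Or.inl (Or.inr ⟨i, h.symm⟩))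
  have hVZ : ∀ k, V k ∉ Z := fun k h => hV k (Or.inl (Or.inl (Or.inl (Or.inl h))))
  have hVb : ∀ k i, V k ≠ b i := fun k i h => hV k (Or.inl (Or.inl (Or.inl (Or.inr ⟨i, h.symm⟩))))
  have hVb' : ∀ k i, V k ≠ b' i := fun k i h => hV k (Or.inl (Or.inl (Or.inr ⟨i, h.symm⟩)))
  have hVU : ∀ k i, V k ≠ U i := fun k i h => hV k (Or.inr ⟨i, h.symm⟩)
  -- the actions
  have sU : ∀ k, s (U k) = U k := fun k => hsw.2.2 _ (fun i => hUb k i) (fun i => hUb' k i)
  have sV : ∀ k, s (V k) = V k := fun k => hsw.2.2 _ (fun i => hVb k i) (fun i => hVb' k i)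
  have tb' : ∀ i, t (b' i) = b' i := fun i =>
    htw.2.2 _ (fun k h => hBb k i h.symm) (fun k h => hUb' k i h.symm)
  have mb' : ∀ i, m (b' i) = b' i := fun i =>
    hmw.2.2 _ (fun k h => hBb k i h.symm) (fun k h => hVb' k i h.symm)
  have tV : ∀ k, t (V k) = V k := fun k =>
    htw.2.2 _ (fun j h => hBV j k h.symm) (fun j => hVU k j)
  have mU : ∀ k, m (U k) = U k := fun k =>
    hmw.2.2 _ (fun j h => hBU j k h.symm) (fun j h => hVU j k h.symm)
  refine ⟨(s * t * s * t) * (s * t * s * t) * (s * m * s * m) * (t * s * t * s), ?_, ?_⟩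
  · have h1 : s * t * s * t ∈ G := G.mul_mem (G.mul_mem (G.mul_mem hs ht) hs) ht
    have h2 : s * m * s * m ∈ G := G.mul_mem (G.mul_mem (G.mul_mem hs hm) hs) hm
    have h3 : t * s * t * s ∈ G := G.mul_mem (G.mul_mem (G.mul_mem ht hs) ht) hs
    exact G.mul_mem (G.mul_mem (G.mul_mem h1 h1) h2) h3
  intro z hz
  have hzU : ∀ k, z ≠ U k := fun k h => hUZ k (h ▸ hz)
  have hzV : ∀ k, z ≠ V k := fun k h => hVZ k (h ▸ hz)
  by_cases h1 : ∃ i, z = b i
  · obtain ⟨i, rfl⟩ := h1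
    by_cases hi : i ∈ I
    · have hgi : g (b i) = b' i := hg.1 ⟨i, hi⟩
      obtain ⟨k, hk⟩ := (hI i).1 hi
      have e1 : s (b i) = b' i := hsw.1 i
      have e2 : s (b' i) = b i := hsw.2.1 i
      have e3 : t (b i) = U k := by rw [hk]; exact htw.1 k
      have e4 : t (U k) = b i := by rw [hk]; exact htw.2.1 k
      have e5 : m (b i) = V k := by rw [hk]; exact hmw.1 k
      have e6 : m (V k) = b i := by rw [hk]; exact hmw.2.1 k
      rw [hgi]
      simp only [Equiv.Perm.mul_apply, e1, e2, e3, e4, e5, e6, sU, sV, tb', mb', tV, mU]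
    · have hgi : g (b i) = b i := hg.2.2 _ (fun j h => hi (by rw [hb h]; exact j.2))
        (fun j => hbb i j)
      have e1 : s (b i) = b' i := hsw.1 i
      have e2 : s (b' i) = b i := hsw.2.1 i
      have e3 : t (b i) = b i := htw.2.2 _ (fun k h => hi ((hI i).2 ⟨k, h⟩)) fun k h => hUb k i h.symm
      have e5 : m (b i) = b i := hmw.2.2 _ (fun k h => hi ((hI i).2 ⟨k, h⟩)) fun k h => hVb k i h.symm
      rw [hgi]
      simp only [Equiv.Perm.mul_apply, e1, e2, e3, e5, tb', mb']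
  by_cases h2 : ∃ i, z = b' i
  · obtain ⟨i, rfl⟩ := h2
    by_cases hi : i ∈ I
    · have hgi : g (b' i) = b i := hg.2.1 ⟨i, hi⟩
      obtain ⟨k, hk⟩ := (hI i).1 hi
      have e1 : s (b i) = b' i := hsw.1 i
      have e2 : s (b' i) = b i := hsw.2.1 i
      have e3 : t (b i) = U k := by rw [hk]; exact htw.1 k
      have e4 : t (U k) = b i := by rw [hk]; exact htw.2.1 k
      have e5 : m (b i) = V k := by rw [hk]; exact hmw.1 k
      have e6 : m (V k) = b i := by rw [hk]; exact hmw.2.1 k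
      rw [hgi]
      simp only [Equiv.Perm.mul_apply, e1, e2, e3, e4, e5, e6, sU, sV, tb', mb', tV, mU]
    · have hgi : g (b' i) = b' i := hg.2.2 _ (fun j h => hbb j i h.symm)
        (fun j h => hi (by rw [hb' h]; exact j.2))
      have e1 : s (b i) = b' i := hsw.1 i
      have e2 : s (b' i) = b i := hsw.2.1 i
      have e3 : t (b i) = b i := htw.2.2 _ (fun k h => hi ((hI i).2 ⟨k, h⟩)) fun k h => hUb k i h.symm
      have e5 : m (b i) = b i := hmw.2.2 _ (fun k h => hi ((hI i).2 ⟨k, h⟩)) fun k h => hVb k i h.symm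
      rw [hgi]
      simp only [Equiv.Perm.mul_apply, e1, e2, e3, e5, tb', mb']
  push Not at h1 h2
  have hgz : g z = z := hg.2.2 _ (fun j => h1 j) (fun j => h2 j)
  have e1 : s z = z := hsw.2.2 _ h1 h2
  rw [hgz]
  by_cases h3 : ∃ k, z = B k
  · obtain ⟨k, rfl⟩ := h3
    have e3 : t (B k) = U k := htw.1 k
    have e4 : t (U k) = B k := htw.2.1 k
    have e5 : m (B k) = V k := hmw.1 k
    have e6 : m (V k) = B k := hmw.2.1 k
    simp only [Equiv.Perm.mul_apply, e1, e3, e4, e5, e6, sU, sV]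
  · push Not at h3
    have e3 : t z = z := htw.2.2 _ h3 hzU
    have e5 : m z = z := hmw.2.2 _ h3 hzV
    simp only [Equiv.Perm.mul_apply, e1, e3, e5]

theorem sw_compl {G : Subgroup (Equiv.Perm Ω)} {b b' : ι → Ω} (hb : Injective b)
    (hbb : ∀ i j, b i ≠ b' j) {s : Equiv.Perm Ω} (hs : s ∈ G) (hsw : IsSwap s b b') {I : Set ι}
    (h : Sw G (fun i : I => b i) (fun i : I => b' i)) :
    Sw G (fun i : (Iᶜ : Set ι) => b i) (fun i : (Iᶜ : Set ι) => b' i) := by
  have hb' := isSwap_inj hsw hb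
  obtain ⟨g, hg, hgw⟩ := h
  refine ⟨s * g, G.mul_mem hs hg, fun i => ?_, fun i => ?_, fun x h1 h2 => ?_⟩
  · have e : g (b i) = b i := hgw.2.2 _ (fun j h => i.2 (by rw [hb h]; exact j.2))
      (fun j => hbb i j)
    rw [Equiv.Perm.mul_apply, e, hsw.1]
  · have e : g (b' i) = b' i := hgw.2.2 _ (fun j h => hbb j i h.symm)
      (fun j h => i.2 (by rw [hb' h]; exact j.2))
    rw [Equiv.Perm.mul_apply, e, hsw.2.1]
  · rw [Equiv.Perm.mul_apply]
    by_cases h3 : ∃ i, x = b i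
    · obtain ⟨i, rfl⟩ := h3
      by_cases hi : i ∈ I
      · have e : g (b i) = b' i := hgw.1 ⟨i, hi⟩
        rw [e, hsw.2.1]
      · exact absurd rfl (h1 ⟨i, hi⟩)
    · by_cases h4 : ∃ i, x = b' i
      · obtain ⟨i, rfl⟩ := h4
        by_cases hi : i ∈ I
        · have e : g (b' i) = b i := hgw.2.1 ⟨i, hi⟩
          rw [e, hsw.1]
        · exact absurd rfl (h2 ⟨i, hi⟩)
      · push Not at h3 h4
        have e : g x = x := hgw.2.2 _ (fun j => h3 j) (fun j => h4 j)
        rw [e, hsw.2.2 _ h3 h4]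

theorem s_INT : S_INT := by
  intro Ω ι κ _ _ G hG b b' B hb hB hbb hsw I hI
  obtain ⟨s, hs, hsw⟩ := hsw
  have key : Sw G (fun i : I => b i) (fun i : I => b' i) := by
    have hf : (range b ∪ range b' ∪ range B).Finite :=
      ((finite_range b).union (finite_range b')).union (finite_range B)
    obtain ⟨c, w, hw, hww, hc, hbc⟩ := good_avoid hb hf
    have hcb' : ∀ i j, c i ≠ b' j := fun i j h => hc i (Or.inl (Or.inr ⟨j, h.symm⟩))
    have hcB : ∀ k i, B k ≠ c i := fun k i h => hc i (Or.inr ⟨k, h⟩)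
    have h1 := part_swap hG hb.1 hB hbc hcB hw hww hI
    have h2 := sw_conj h1 (g := s * w * s) (G.mul_mem (G.mul_mem hs hw) hs)
    have e1 : ∀ i, (s * w * s) (b i) = b i := fun i => by
      have : w (b' i) = b' i := hww.2.2 _ (fun j h => hbb j i h.symm) (fun j h => hcb' j i h.symm)
      simp only [Equiv.Perm.mul_apply, hsw.1, this, hsw.2.1]
    have e2 : ∀ i, (s * w * s) (c i) = b' i := fun i => by
      have : s (c i) = c i := hsw.2.2 _ (fun j h => hbc j i h.symm) (fun j => hcb' i j)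
      simp only [Equiv.Perm.mul_apply, this, hww.2.1, hsw.1]
    simpa only [e1, e2] using h2
  exact ⟨key, sw_compl hb.1 hbb hs hsw key⟩

end Pool.Agent.L7h51.UN
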